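import Pool.Agent.Mg.F418f02a.G0f1331

/-! The conjectured `A₁` bound for homogeneous singular integrals whose angular part is a sum of
bounded pieces, each oscillating in its own band of scales. -/

open MeasureTheory Filter Topology Pool.Agent.MP_418f02_an
open scoped ENNReal

namespace Pool.Agent.Results.MP_418f02_an.Bands

/-- `F` is measurable, bounded by `M`, and its radial extension has mean zero -/
def Rough {d : ℕ} (F : EuclideanSpace ℝ (Fin d) → ℝ) (M : ℝ) : Prop :=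
  Measurable F ∧ (∀ x, |F x| ≤ M) ∧
    (∫ y in {y : EuclideanSpace ℝ (Fin d) | 1 ≤ ‖y‖ ∧ ‖y‖ ≤ 2}, F (‖y‖⁻¹ • y)) = 0

/-- for some scales `b ≤ a` with `log (a / b) ≤ t ^ 2`, the radial extension of `F` has a Hoelder
modulus in the mean below scale `b` on the balls of radius `a` centred on the unit sphere, and
its integrals over the balls of radius above `a` decay -/
def Band {d : ℕ} (α : ℝ) (F : EuclideanSpace ℝ (Fin d) → ℝ) (M t : ℝ) : Prop :=
  ∃ a b : ℝ, 0 < b ∧ b ≤ a ∧ a ≤ 1 / 2 ∧ Real.log (a / b) ≤ t ^ 2 ∧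
    ∀ u : EuclideanSpace ℝ (Fin d), ‖u‖ = 1 →
      (∀ h : EuclideanSpace ℝ (Fin d), ‖h‖ ≤ b → (∫ y in Metric.ball u a,
        |F (‖y + h‖⁻¹ • (y + h)) - F (‖y‖⁻¹ • y)|) ≤ M * (‖h‖ / b) ^ α * a ^ d) ∧
      ∀ r : ℝ, a ≤ r → r ≤ 1 / 2 →
        |∫ y in Metric.ball u r, F (‖y‖⁻¹ • y)| ≤ M * (a / r) ^ α * r ^ d

theorem result : ∀ d : ℕ, 1 ≤ d → ∀ α : ℝ, 0 < α → ∃ C : ℝ, 0 < C ∧ ∀ p : ℝ, 1 < p →
    ∀ (Ω : EuclideanSpace ℝ (Fin d) → ℝ) (F : ℕ → EuclideanSpace ℝ (Fin d) → ℝ) (M t : ℕ → ℝ)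
      (S : ℝ), (∀ y, HasSum (fun n => F n y) (Ω y)) → HasSum (fun n => M n * t n) S →
      (∀ n, Rough (F n) (M n) ∧ 1 ≤ t n ∧ (Band α (F n) (M n) (t n) ∨ p / (p - 1) ≤ t n)) →
      ∀ w : EuclideanSpace ℝ (Fin d) → ℝ, LocallyIntegrable w volume → (∀ᵐ x, 0 < w x) →
      ∀ A : ℝ,
        (∀ (c : EuclideanSpace ℝ (Fin d)) (r : ℝ), 0 < r →
          ∀ᵐ x ∂(volume : Measure (EuclideanSpace ℝ (Fin d))),
            x ∈ Metric.ball c r → (⨍ y in Metric.ball c r, w y) ≤ A * w x) →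
      ∀ f : EuclideanSpace ℝ (Fin d) → ℝ, ContDiff ℝ (⊤ : ℕ∞) f → HasCompactSupport f →
      ∀ Tf : EuclideanSpace ℝ (Fin d) → ℝ,
        (∀ x, Tendsto
          (fun ε : ℝ => ∫ y in {y : EuclideanSpace ℝ (Fin d) | ε < ‖y‖},
              Ω (‖y‖⁻¹ • y) / ‖y‖ ^ d * f (x - y))
          (𝓝[>] (0 : ℝ)) (𝓝 (Tf x))) →
        eLpNorm Tf (ENNReal.ofReal p)
            ((volume : Measure (EuclideanSpace ℝ (Fin d))).withDensity
              (fun x => ENNReal.ofReal (w x)))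
          ≤ ENNReal.ofReal (C * S * (p * (p / (p - 1)) * A)) *
            eLpNorm f (ENNReal.ofReal p)
              ((volume : Measure (EuclideanSpace ℝ (Fin d))).withDensity
                (fun x => ENNReal.ofReal (w x))) := by
  intro d hd α hα
  obtain ⟨C₀, hC₀, h0⟩ := kb_ser hd
  obtain ⟨C₁, hC₁, h1⟩ := kb_band hd hα
  obtain ⟨C₂, hC₂, h2⟩ := a1_of_ball (d := d)
  obtain ⟨C₃, hC₃, h3⟩ := kb_main hd
  have hc : (0 : ℝ) < (2 ^ d - 1) / d :=
    div_pos (sub_pos.2 (one_lt_pow₀ one_lt_two (by omega))) (Nat.cast_pos.2 hd)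
  refine ⟨(C₁ + C₃ + C₀) * C₂ / ((2 ^ d - 1) / d), by positivity,
    fun p hp Ω F M t S hF hS H w hw hw0 A hA f hf hfs Tf hT => ?_⟩
  have hp0 : 0 < p := by linarith
  have hp1 : 0 < p - 1 := sub_pos.2 hp
  obtain ⟨hΩ, hM, hz, h4⟩ := h0 Ω F M t S p (C₁ + C₃) hp (by positivity) hF hS (fun n => (H n).2.1)
    (fun n => (H n).1.1) (fun n => (H n).1.2.1) (fun n => (H n).1.2.2) fun n hn => by
      obtain ⟨⟨a1, a2, a3⟩, a4, a5⟩ := H n
      have hk := isKer_kO a1 hn a2 a3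
      rcases a5 with ⟨a, b, b1, b2, b3, b4, b5⟩ | a5
      · exact (h1 _ _ a b _ p a1 hn a2 hk b1 b2 b3 (fun u hu => (b5 u hu).1)
          (fun u hu => (b5 u hu).2) a4 b4 hp).mono (by gcongr; linarith)
      · exact (h3 _ p _ hk hp a4 (Or.inl a5)).mono (by gcongr; linarith)
  rcases ((abs_nonneg _).trans (hM 0)).eq_or_lt with rfl | hM0
  · have hz : Tf = 0 := funext fun x => by
      have := hT x
      simp only [fun y => abs_nonpos_iff.1 (hM y), zero_div, zero_mul, integral_zero] at this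
      exact tendsto_nhds_unique this tendsto_const_nhds
    simp [hz]
  obtain ⟨hA1, w', hw', hA'⟩ := h2 w A hw hw0 hA
  have hk := isKer_kO hΩ hM0 hM hz
  have hfn : Nice f := by
    refine ⟨hf.continuous.measurable, ?_, ?_⟩
    · obtain ⟨B, hB⟩ := hf.continuous.bounded_above_of_compact_support hfs
      exact ⟨B, hB⟩
    · obtain ⟨R, hR⟩ := hfs.isCompact.isBounded.exists_norm_le
      exact ⟨R, fun x hx => image_eq_zero_of_notMem_tsupport fun h => (hR x h).not_gt hx⟩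
  have hA0 : 0 < A := by linarith
  set q := p / (p - 1) with hq
  have hq1 : 1 ≤ q := (one_le_div hp1).2 (by linarith)
  set c : ℝ := (2 ^ d - 1) / d / S with hcd
  have hc0 : 0 < c := div_pos hc hM0
  have hlim := fun x => TT_tendsto hd hΩ hM hk hfn x (hT x)
  have hm := fun J : ℕ => (TT_nice hk hfn (-J) J).meas
  have hden : (volume : Measure (E d)).withDensity (fun x => ENNReal.ofReal (w x)) =
      volume.withDensity fun x => ENNReal.ofReal (w' x) :=
    withDensity_congr_ae (hw'.mono fun x hx => by simp only [hx])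
  have h5 := Lp.eLpNorm_le_of_ae_tendsto (g := c • Tf) (Eventually.of_forall fun J : ℕ =>
    h4 hM0 w' f _ (-J) J hA' hfn)
    (fun J => (hm J).aestronglyMeasurable) (Eventually.of_forall hlim)
  rw [eLpNorm_const_smul, Real.enorm_eq_ofReal hc0.le] at h5
  rw [hden]
  calc _ = ENNReal.ofReal c⁻¹ * (ENNReal.ofReal c * eLpNorm Tf (ENNReal.ofReal p)
        (volume.withDensity fun x => ENNReal.ofReal (w' x))) := by
        rw [← mul_assoc, ← ENNReal.ofReal_mul (by positivity), inv_mul_cancel₀ hc0.ne',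
          ENNReal.ofReal_one, one_mul]
    _ ≤ _ := mul_le_mul_right h5 _
    _ ≤ _ := by
        rw [← mul_assoc, ← ENNReal.ofReal_mul (by positivity)]
        refine mul_le_mul_left (ENNReal.ofReal_le_ofReal (le_of_eq ?_)) _
        rw [hcd]
        field_simp

end Pool.Agent.Results.MP_418f02_an.Bands
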