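import Pool.Agent.MP_418f02_an.Rd.B

/-! The conjectured `A₁` bound for rough homogeneous singular integrals and weights that, away
from a porous set, do not concentrate near planes of codimension two. -/

open MeasureTheory Filter Topology Pool.Agent.MP_418f02_an
open scoped ENNReal RealInnerProductSpace

namespace Pool.Agent.Results.MP_418f02_an.Spread

/-- `Ω` is measurable, bounded by `M`, and its radial extension has mean zero -/
def Rough {d : ℕ} (Ω : EuclideanSpace ℝ (Fin d) → ℝ) (M : ℝ) : Prop :=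
  Measurable Ω ∧ (∀ x, |Ω x| ≤ M) ∧
    (∫ y in {y : EuclideanSpace ℝ (Fin d) | 1 ≤ ‖y‖ ∧ ‖y‖ ≤ 2}, Ω (‖y‖⁻¹ • y)) = 0

/-- `w` is a weight whose average over each ball is at most `A * w x` at almost every point `x`
of the ball -/
def BallA1 {d : ℕ} (w : EuclideanSpace ℝ (Fin d) → ℝ) (A : ℝ) : Prop :=
  LocallyIntegrable w volume ∧ (∀ᵐ x, 0 < w x) ∧
    ∀ (c : EuclideanSpace ℝ (Fin d)) (r : ℝ), 0 < r →
      ∀ᵐ x ∂(volume : Measure (EuclideanSpace ℝ (Fin d))),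
        x ∈ Metric.ball c r → (⨍ y in Metric.ball c r, w y) ≤ A * w x

/-- `f` is smooth with compact support and `Tf` is its singular integral at every point -/
def SingInt {d : ℕ} (Ω f Tf : EuclideanSpace ℝ (Fin d) → ℝ) : Prop :=
  ContDiff ℝ (⊤ : ℕ∞) f ∧ HasCompactSupport f ∧ ∀ x, Tendsto
    (fun ε : ℝ => ∫ y in {y : EuclideanSpace ℝ (Fin d) | ε < ‖y‖},
      Ω (‖y‖⁻¹ • y) / ‖y‖ ^ d * f (x - y)) (𝓝[>] (0 : ℝ)) (𝓝 (Tf x))

/-- every closed ball of radius `r` has a point at distance at least `κ * r` from `Z` -/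
def Porous {d : ℕ} (Z : Set (EuclideanSpace ℝ (Fin d))) (κ : ℝ) : Prop :=
  ∀ (c : EuclideanSpace ℝ (Fin d)) (r : ℝ), 0 < r → ∃ y, ‖y - c‖ ≤ r ∧ ∀ z ∈ Z, κ * r ≤ ‖y - z‖

/-- on balls whose double misses `Z`, the weight does not concentrate near planes of
codimension two -/
def Thin {d : ℕ} (w : EuclideanSpace ℝ (Fin d) → ℝ) (Z : Set (EuclideanSpace ℝ (Fin d)))
    (s D : ℝ) : Prop :=
  ∀ (y u v : EuclideanSpace ℝ (Fin d)) (a b r R : ℝ), ‖u‖ = 1 → ‖v‖ = 1 → ⟪u, v⟫ = 0 →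
    0 < r → r ≤ R → (∀ z ∈ Z, 2 * R ≤ ‖y - z‖) →
    (∫ x in Metric.ball y R ∩ {x | |⟪x, u⟫ - a| ≤ r ∧ |⟪x, v⟫ - b| ≤ r}, w x) ≤
      D * (r / R) ^ s * ∫ x in Metric.ball y (2 * R), w x

/-- the measure `w dx` -/
noncomputable def wdx {d : ℕ} (w : EuclideanSpace ℝ (Fin d) → ℝ) :
    Measure (EuclideanSpace ℝ (Fin d)) :=
  volume.withDensity fun x => ENNReal.ofReal (w x)

theorem result : ∀ d : ℕ, 2 ≤ d → ∀ s κ : ℝ, 0 < s → 0 < κ → ∃ C : ℝ, 0 < C ∧
    ∀ (Ω w f Tf : EuclideanSpace ℝ (Fin d) → ℝ) (Z : Set (EuclideanSpace ℝ (Fin d)))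
      (M A D p : ℝ), Rough Ω M → BallA1 w A → Porous Z κ → 1 ≤ D → Thin w Z s D →
      SingInt Ω f Tf → 1 < p →
      eLpNorm Tf (ENNReal.ofReal p) (wdx w) ≤
        ENNReal.ofReal (C * M * D * (p * (p / (p - 1)) * A)) *
          eLpNorm f (ENNReal.ofReal p) (wdx w) := by
  intro d hd2 s κ hs hκ
  have hd : 1 ≤ d := by omega
  obtain ⟨Λ, hΛ, C₁, hC₁, h1⟩ := rd_main hd hs hκ
  obtain ⟨C₂, hC₂, h2⟩ := a1_of_ball (d := d)
  have hc : (0 : ℝ) < (2 ^ d - 1) / d :=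
    div_pos (sub_pos.2 (one_lt_pow₀ one_lt_two (by omega))) (Nat.cast_pos.2 hd)
  refine ⟨C₁ * C₂ / ((2 ^ d - 1) / d), by positivity,
    fun Ω w f Tf Z M A D p ⟨hΩ, hM, h0⟩ ⟨hw, hw0, hA⟩ hZ hD1 hD ⟨hf, hfs, hT⟩ hp => ?_⟩
  rcases ((abs_nonneg _).trans (hM 0)).eq_or_lt with rfl | hM0
  · have hz : Tf = 0 := funext fun x => by
      have := hT x
      simp only [fun y => abs_nonpos_iff.1 (hM y), zero_div, zero_mul, integral_zero] at this
      exact tendsto_nhds_unique this tendsto_const_nhds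
    simp [hz]
  obtain ⟨hA1, w', hw', hA'⟩ := h2 w A hw hw0 hA
  have hint : ∀ S : Set (E d), ∫ x in S, w' x = ∫ x in S, w x := fun S =>
    integral_congr_ae (ae_restrict_of_ae hw')
  have hrd := ball_pf w' Z _ s D hA' hs.le hD1 fun y u v a b r R a1 a2 a3 a4 a5 a6 => by
    rw [hint, hint]
    exact hD y u v a b r R a1 a2 a3 a4 a5 a6
  have hk := isKer_kO hΩ hM0 hM h0
  have hfn : Nice f := by
    refine ⟨hf.continuous.measurable, ?_, ?_⟩
    · obtain ⟨B, hB⟩ := hf.continuous.bounded_above_of_compact_support hfs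
      exact ⟨B, hB⟩
    · obtain ⟨R, hR⟩ := hfs.isCompact.isBounded.exists_norm_le
      exact ⟨R, fun x hx => image_eq_zero_of_notMem_tsupport fun h => (hR x h).not_gt hx⟩
  have hp0 : 0 < p := by linarith
  have hp1 : 0 < p - 1 := sub_pos.2 hp
  have hA0 : 0 < A := by linarith
  have hD0 : 0 < D := by linarith
  have hq0 : 0 < p / (p - 1) := div_pos hp0 hp1
  set c : ℝ := (2 ^ d - 1) / d / M with hcd
  have hc0 : 0 < c := div_pos hc hM0
  have hlim := fun x => TT_tendsto hd hΩ hM hk hfn x (hT x)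
  have hm := fun J : ℕ => (TT_nice hk hfn (-J) J).meas
  have hden : wdx w = volume.withDensity fun x => ENNReal.ofReal (w' x) :=
    withDensity_congr_ae (hw'.mono fun x hx => by simp only [hx])
  have h5 := Lp.eLpNorm_le_of_ae_tendsto (g := c • Tf) (Eventually.of_forall fun J : ℕ =>
    h1 _ f w' Z _ _ p (-J) J hk (hΛ Z hZ) hfn hA' hrd hD1 hp)
    (fun J => (hm J).aestronglyMeasurable) (Eventually.of_forall hlim)
  rw [eLpNorm_const_smul, Real.enorm_eq_ofReal hc0.le] at h5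
  rw [hden]
  calc _ = ENNReal.ofReal c⁻¹ * (ENNReal.ofReal c * eLpNorm Tf (ENNReal.ofReal p)
        (volume.withDensity fun x => ENNReal.ofReal (w' x))) := by
        rw [← mul_assoc, ← ENNReal.ofReal_mul (by positivity), inv_mul_cancel₀ hc0.ne',
          ENNReal.ofReal_one, one_mul]
    _ ≤ _ := mul_le_mul_right h5 _
    _ ≤ _ := by
        rw [← mul_assoc, ← ENNReal.ofReal_mul (by positivity)]
        refine mul_le_mul_left (ENNReal.ofReal_le_ofReal (le_of_eq ?_)) _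
        rw [hcd]
        field_simp

end Pool.Agent.Results.MP_418f02_an.Spread
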