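import Pool.Agent.Mg.F418f02.Gcc7537
import Pool.Agent.Mg.F418f02.G50f601

/-! An `A₁` bound with exponent `3 / 2` for rough homogeneous singular integrals, `1 < p ≤ 2`. -/

open MeasureTheory Filter Topology Pool.Agent.MP_418f02_an
open scoped ENNReal

theorem Pool.Agent.Results.MP_418f02_an.ThreeHalves.result :
    ∀ d : ℕ, 1 ≤ d → ∃ C : ℝ, 0 < C ∧
    ∀ Ω : EuclideanSpace ℝ (Fin d) → ℝ, Measurable Ω → ∀ M : ℝ, (∀ x, |Ω x| ≤ M) →
    (∫ y in {y : EuclideanSpace ℝ (Fin d) | 1 ≤ ‖y‖ ∧ ‖y‖ ≤ 2}, Ω (‖y‖⁻¹ • y)) = 0 →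
      ∀ p : ℝ, 1 < p → p ≤ 2 →
      ∀ w : EuclideanSpace ℝ (Fin d) → ℝ, LocallyIntegrable w volume → (∀ᵐ x, 0 < w x) →
      ∀ A : ℝ,
        (∀ (c : EuclideanSpace ℝ (Fin d)) (r : ℝ), 0 < r →
          ∀ᵐ x ∂(volume : Measure (EuclideanSpace ℝ (Fin d))),
            x ∈ Metric.ball c r → (⨍ y in Metric.ball c r, w y) ≤ A * w x) →
      ∀ f : EuclideanSpace ℝ (Fin d) → ℝ, ContDiff ℝ (⊤ : ℕ∞) f → HasCompactSupport f →
      ∀ Tf : EuclideanSpace ℝ (Fin d) → ℝ,
        (∀ x, Tendsto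
          (fun ε : ℝ => ∫ y in {y : EuclideanSpace ℝ (Fin d) | ε < ‖y‖},
              Ω (‖y‖⁻¹ • y) / ‖y‖ ^ d * f (x - y))
          (𝓝[>] (0 : ℝ)) (𝓝 (Tf x))) →
        eLpNorm Tf (ENNReal.ofReal p)
            ((volume : Measure (EuclideanSpace ℝ (Fin d))).withDensity
              (fun x => ENNReal.ofReal (w x)))
          ≤ ENNReal.ofReal (C * M * (p / (p - 1) * A ^ (3 / 2 : ℝ) + A ^ 2)) *
            eLpNorm f (ENNReal.ofReal p)
              ((volume : Measure (EuclideanSpace ℝ (Fin d))).withDensity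
                (fun x => ENNReal.ofReal (w x))) := by
  intro d hd
  obtain ⟨C₁, hC₁, h1⟩ := lp_bound hd
  obtain ⟨C₂, hC₂, h2⟩ := a1_of_ball (d := d)
  have hc : (0 : ℝ) < (2 ^ d - 1) / d :=
    div_pos (sub_pos.2 (one_lt_pow₀ one_lt_two (by omega))) (Nat.cast_pos.2 hd)
  refine ⟨C₁ * C₂ ^ 2 / ((2 ^ d - 1) / d), by positivity,
    fun Ω hΩ M hM h0 p hp hp2 w hw hw0 A hA f hf hfs Tf hT => ?_⟩
  rcases ((abs_nonneg _).trans (hM 0)).eq_or_lt with rfl | hM0
  · have hz : Tf = 0 := funext fun x => by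
      have := hT x
      simp only [fun y => abs_nonpos_iff.1 (hM y), zero_div, zero_mul, integral_zero] at this
      exact tendsto_nhds_unique this tendsto_const_nhds
    simp [hz]
  obtain ⟨hA1, w', hw', hA'⟩ := h2 w A hw hw0 hA
  have hk := isKer_kO hΩ hM0 hM h0
  have hfn : Nice f := by
    refine ⟨hf.continuous.measurable, ?_, ?_⟩
    · obtain ⟨B, hB⟩ := hf.continuous.bounded_above_of_compact_support hfs
      exact ⟨B, hB⟩
    · obtain ⟨R, hR⟩ := hfs.isCompact.isBounded.exists_norm_le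
      exact ⟨R, fun x hx => image_eq_zero_of_notMem_tsupport fun h => (hR x h).not_gt hx⟩
  set c : ℝ := (2 ^ d - 1) / d / M with hcd
  have hc0 : 0 < c := div_pos hc hM0
  have hlim := fun x => TT_tendsto hd hΩ hM hk hfn x (hT x)
  have hm := fun J : ℕ => (TT_nice hk hfn (-J) J).meas
  have hTm : Measurable Tf := by
    have := (measurable_of_tendsto_metrizable hm (tendsto_pi_nhds.2 hlim)).const_mul c⁻¹
    simpa only [← hcd, inv_mul_cancel_left₀ hc0.ne'] using this
  have hp0 : 0 < p := by linarith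
  have hp1 : 0 < p - 1 := sub_pos.2 hp
  have hA0 : 0 < A := by linarith
  set B : ℝ := C₁ * (p / (p - 1) * (C₂ * A * √(C₂ * A)) + (C₂ * A) ^ 2) with hB
  have hB0 : 0 ≤ B := by positivity
  have hwm : Measurable fun x => ENNReal.ofReal (w' x) := hA'.meas.ennreal_ofReal
  have h3 : ∫⁻ x, ENNReal.ofReal |c * Tf x| ^ p * ENNReal.ofReal (w' x) ≤
      ENNReal.ofReal (B ^ p) * ∫⁻ x, ENNReal.ofReal |f x| ^ p * ENNReal.ofReal (w' x) := by
    have e : ∀ x, ENNReal.ofReal |c * Tf x| ^ p * ENNReal.ofReal (w' x) = liminf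
        (fun J : ℕ => ENNReal.ofReal |TT (kO Ω M) (-J) J f x| ^ p * ENNReal.ofReal (w' x))
        atTop := fun x => by
      refine (Tendsto.liminf_eq ?_).symm
      refine ENNReal.Tendsto.mul_const ?_ (Or.inr ENNReal.ofReal_ne_top)
      exact (ENNReal.continuous_rpow_const.tendsto _).comp (ENNReal.tendsto_ofReal (hlim x).abs)
    simp only [e]
    refine (lintegral_liminf_le fun J => ?_).trans (liminf_le_of_frequently_le' ?_)
    · exact ((hm J).abs.ennreal_ofReal.pow_const p).mul hwm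
    · exact Frequently.of_forall fun J => h1 _ f w' _ p _ _ hk hfn hA' hp hp2
  have hden : (volume : Measure (E d)).withDensity (fun x => ENNReal.ofReal (w x)) =
      volume.withDensity fun x => ENNReal.ofReal (w' x) :=
    withDensity_congr_ae (hw'.mono fun x hx => by simp only [hx])
  have hnorm : ∀ u : E d → ℝ, Measurable u → eLpNorm u (ENNReal.ofReal p)
      (volume.withDensity fun x => ENNReal.ofReal (w' x)) =
      (∫⁻ x, ENNReal.ofReal |u x| ^ p * ENNReal.ofReal (w' x)) ^ (1 / p) := fun u hu => by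
    rw [eLpNorm_eq_lintegral_rpow_enorm_toReal (by simpa using hp0) ENNReal.ofReal_ne_top,
      ENNReal.toReal_ofReal hp0.le,
      lintegral_withDensity_eq_lintegral_mul _ hwm (hu.enorm.pow_const p)]
    simp only [Pi.mul_apply, Real.enorm_eq_ofReal_abs, mul_comm]
  have h4 : ENNReal.ofReal c * eLpNorm Tf (ENNReal.ofReal p)
      (volume.withDensity fun x => ENNReal.ofReal (w' x)) ≤ ENNReal.ofReal B *
      eLpNorm f (ENNReal.ofReal p) (volume.withDensity fun x => ENNReal.ofReal (w' x)) := by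
    have e1 := eLpNorm_const_smul c Tf (ENNReal.ofReal p)
      (volume.withDensity fun x => ENNReal.ofReal (w' x))
    rw [Real.enorm_eq_ofReal hc0.le] at e1
    rw [← e1, hnorm _ (hTm.const_smul c), hnorm _ hfn.meas]
    refine (ENNReal.rpow_le_rpow h3 (by positivity)).trans_eq ?_
    rw [ENNReal.mul_rpow_of_nonneg _ _ (by positivity), ENNReal.ofReal_rpow_of_nonneg
      (by positivity) (by positivity), one_div, Real.rpow_rpow_inv hB0 hp0.ne']
  have h5 : c⁻¹ * B ≤
      C₁ * C₂ ^ 2 / ((2 ^ d - 1) / d) * M * (p / (p - 1) * A ^ (3 / 2 : ℝ) + A ^ 2) := by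
    have e1 : A ^ (3 / 2 : ℝ) = A * √A := by
      rw [Real.sqrt_eq_rpow, ← Real.rpow_one_add' hA0.le (by norm_num)]
      norm_num
    have e2 : √(C₂ * A) ≤ C₂ * √A := by
      rw [Real.sqrt_mul (by linarith)]
      exact mul_le_mul_of_nonneg_right (Real.sqrt_le_self_iff.2 (Or.inr hC₂)) (Real.sqrt_nonneg _)
    have e3 : B ≤ C₁ * C₂ ^ 2 * (p / (p - 1) * (A * √A) + A ^ 2) := by
      calc B ≤ C₁ * (p / (p - 1) * (C₂ * A * (C₂ * √A)) + (C₂ * A) ^ 2) := by
            rw [hB]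
            gcongr
        _ = _ := by ring
    rw [e1, hcd, inv_div]
    calc _ ≤ M / ((2 ^ d - 1) / d) * (C₁ * C₂ ^ 2 * (p / (p - 1) * (A * √A) + A ^ 2)) := by
          gcongr
      _ = _ := by ring
  rw [hden]
  calc _ = ENNReal.ofReal c⁻¹ * (ENNReal.ofReal c * eLpNorm Tf (ENNReal.ofReal p)
        (volume.withDensity fun x => ENNReal.ofReal (w' x))) := by
        rw [← mul_assoc, ← ENNReal.ofReal_mul (by positivity), inv_mul_cancel₀ hc0.ne',
          ENNReal.ofReal_one, one_mul]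
    _ ≤ ENNReal.ofReal c⁻¹ * (ENNReal.ofReal B * eLpNorm f (ENNReal.ofReal p)
        (volume.withDensity fun x => ENNReal.ofReal (w' x))) := mul_le_mul_right h4 _
    _ ≤ _ := by
        rw [← mul_assoc, ← ENNReal.ofReal_mul (by positivity)]
        exact mul_le_mul_left (ENNReal.ofReal_le_ofReal h5) _
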