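import Pool.Agent.Mg.F418f02a.G52fc46

/-! The endpoint `p = 1`: the weighted weak type norm of homogeneous singular integrals with
bounded angular part has the exact order `[w]_{A₁} ^ 2`. -/

open MeasureTheory Filter Topology Pool.Agent.MP_418f02_an
open scoped ENNReal

namespace Pool.Agent.Results.MP_418f02_an.WeakSharp

/-- `Ω` is measurable, bounded by `M`, and its radial extension has mean zero -/
def Rough {d : ℕ} (Ω : EuclideanSpace ℝ (Fin d) → ℝ) (M : ℝ) : Prop :=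
  Measurable Ω ∧ (∀ x, |Ω x| ≤ M) ∧
    (∫ y in {y : EuclideanSpace ℝ (Fin d) | 1 ≤ ‖y‖ ∧ ‖y‖ ≤ 2}, Ω (‖y‖⁻¹ • y)) = 0

/-- `w` is a weight whose average over each ball is at most `A * w x` at almost every point `x`
of the ball -/
def BallA1 {d : ℕ} (w : EuclideanSpace ℝ (Fin d) → ℝ) (A : ℝ) : Prop :=
  LocallyIntegrable w volume ∧ (∀ᵐ x, 0 < w x) ∧
    ∀ (c : EuclideanSpace ℝ (Fin d)) (r : ℝ), 0 < r →
      ∀ᵐ x ∂(volume : Measure (EuclideanSpace ℝ (Fin d))),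
        x ∈ Metric.ball c r → (⨍ y in Metric.ball c r, w y) ≤ A * w x

/-- `f` is smooth with compact support and `Tf` is its singular integral at every point -/
def SingInt {d : ℕ} (Ω f Tf : EuclideanSpace ℝ (Fin d) → ℝ) : Prop :=
  ContDiff ℝ (⊤ : ℕ∞) f ∧ HasCompactSupport f ∧ ∀ x, Tendsto
    (fun ε : ℝ => ∫ y in {y : EuclideanSpace ℝ (Fin d) | ε < ‖y‖},
      Ω (‖y‖⁻¹ • y) / ‖y‖ ^ d * f (x - y)) (𝓝[>] (0 : ℝ)) (𝓝 (Tf x))

/-- the measure `w dx` -/
noncomputable def wdx {d : ℕ} (w : EuclideanSpace ℝ (Fin d) → ℝ) :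
    Measure (EuclideanSpace ℝ (Fin d)) :=
  volume.withDensity fun x => ENNReal.ofReal (w x)

theorem result : ∀ d : ℕ, 2 ≤ d →
    (∃ C : ℝ, 0 < C ∧ ∀ (Ω w f Tf : EuclideanSpace ℝ (Fin d) → ℝ) (M A t : ℝ),
      Rough Ω M → BallA1 w A → SingInt Ω f Tf → 0 < t →
        ENNReal.ofReal t * wdx w {x | t < |Tf x|} ≤
          ENNReal.ofReal (C * M * A ^ 2) * eLpNorm f 1 (wdx w)) ∧
    (∃ Ω : EuclideanSpace ℝ (Fin d) → ℝ, Rough Ω 1 ∧ ∃ c : ℝ, 0 < c ∧ ∃ A₀ : ℝ, ∀ A : ℝ, A₀ ≤ A →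
      ∃ (w f Tf : EuclideanSpace ℝ (Fin d) → ℝ) (t : ℝ), BallA1 w A ∧ SingInt Ω f Tf ∧ 0 < t ∧
        ENNReal.ofReal (c * A ^ 2) * eLpNorm f 1 (wdx w) <
          ENNReal.ofReal t * wdx w {x | t < |Tf x|}) := by
  intro d hd2
  have hd : 1 ≤ d := by omega
  refine ⟨?_, ?_⟩
  swap
  · obtain ⟨Ω, h1, h2, h3, c, hc, A₀, h⟩ := weak_low hd2
    refine ⟨Ω, ⟨h1, h2, h3⟩, c, hc, A₀, fun A hA => ?_⟩
    obtain ⟨w, h4, h5, h6, f, h7, h8, Tf, h9, t, ht, h10⟩ := h A hA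
    exact ⟨w, f, Tf, t, ⟨h4, Eventually.of_forall h5,
      fun z r hr => Eventually.of_forall (h6 z r hr)⟩, ⟨h7, h8, h9⟩, ht, h10⟩
  obtain ⟨C₁, hC₁, h1⟩ := weak_TT hd
  obtain ⟨C₂, hC₂, h2⟩ := a1_of_ball (d := d)
  have hc : (0 : ℝ) < (2 ^ d - 1) / d :=
    div_pos (sub_pos.2 (one_lt_pow₀ one_lt_two (by omega))) (Nat.cast_pos.2 hd)
  refine ⟨C₁ * C₂ ^ 2 / ((2 ^ d - 1) / d), by positivity,
    fun Ω w f Tf M A t ⟨hΩ, hM, h0⟩ ⟨hw, hw0, hA⟩ ⟨hf, hfs, hT⟩ ht => ?_⟩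
  rcases ((abs_nonneg _).trans (hM 0)).eq_or_lt with rfl | hM0
  · have hz : Tf = 0 := funext fun x => by
      have := hT x
      simp only [fun y => abs_nonpos_iff.1 (hM y), zero_div, zero_mul, integral_zero] at this
      exact tendsto_nhds_unique this tendsto_const_nhds
    simp [hz, ht.not_gt]
  obtain ⟨hA1, w', hw', hA'⟩ := h2 w A hw hw0 hA
  have hk := isKer_kO hΩ hM0 hM h0
  have hfn : Nice f := by
    refine ⟨hf.continuous.measurable, ?_, ?_⟩
    · obtain ⟨B, hB⟩ := hf.continuous.bounded_above_of_compact_support hfs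
      exact ⟨B, hB⟩
    · obtain ⟨R, hR⟩ := hfs.isCompact.isBounded.exists_norm_le
      exact ⟨R, fun x hx => image_eq_zero_of_notMem_tsupport fun h => (hR x h).not_gt hx⟩
  set c : ℝ := (2 ^ d - 1) / d / M with hcd
  have hc0 : 0 < c := div_pos hc hM0
  have hden : wdx w = wm w' :=
    withDensity_congr_ae (hw'.mono fun x hx => by simp only [hx])
  rw [hden]
  have h3 : wm w' {x | t < |Tf x|} ≤
      ENNReal.ofReal (C₁ * (C₂ * A) ^ 2 / (c * t) * ∫ x, |f x| * w' x) := by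
    calc _ ≤ wm w' (⋃ N : ℕ, ⋂ J ≥ N, {x | c * t < |TT (kO Ω M) (-(J : ℕ)) (J : ℕ) f x|}) := by
          refine measure_mono fun x hx => ?_
          have h4 := (TT_tendsto hd hΩ hM hk hfn x (hT x)).abs.eventually
            (lt_mem_nhds (show c * t < |c * Tf x| by
              rw [abs_mul, abs_of_pos hc0]
              exact mul_lt_mul_of_pos_left hx hc0))
          obtain ⟨N, hN⟩ := eventually_atTop.1 h4
          exact Set.mem_iUnion.2 ⟨N, Set.mem_iInter₂.2 hN⟩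
      _ ≤ _ := by
          rw [Monotone.measure_iUnion fun N N' h => Set.biInter_subset_biInter_left
            fun J (hJ : J ≥ N') => h.trans hJ]
          exact iSup_le fun N => (measure_mono (Set.biInter_subset_of_mem le_rfl)).trans
            (h1 _ hk w' _ hA' f hfn (hfs.uniformContinuous_of_continuous hf.continuous) _ _ _
              (by positivity))
  have h4 : ENNReal.ofReal (∫ x, |f x| * w' x) ≤ eLpNorm f 1 (wm w') := by
    rw [eLpNorm_one_eq_lintegral_enorm, wm, lintegral_withDensity_eq_lintegral_mul _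
      hA'.meas.ennreal_ofReal hfn.meas.enorm]
    refine (ENNReal.ofReal_le_ofReal (le_abs_self _)).trans ?_
    rw [← Real.enorm_eq_ofReal_abs]
    refine (enorm_integral_le_lintegral_enorm _).trans (lintegral_mono fun x => le_of_eq ?_)
    simp only [Pi.mul_apply]
    rw [enorm_mul, Real.enorm_abs, Real.enorm_eq_ofReal (hA'.pos x).le, mul_comm]
  calc _ ≤ _ := mul_le_mul_right h3 _
    _ = ENNReal.ofReal (C₁ * C₂ ^ 2 / ((2 ^ d - 1) / d) * M * A ^ 2) *
        ENNReal.ofReal (∫ x, |f x| * w' x) := by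
        rw [← ENNReal.ofReal_mul ht.le, ← ENNReal.ofReal_mul (by positivity)]
        congr 1
        rw [hcd]
        field_simp
    _ ≤ _ := mul_le_mul_right h4 _

end Pool.Agent.Results.MP_418f02_an.WeakSharp
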